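import Pool.Agent.FOR.Main
import Pool.Agent.FOR.Bit
import Pool.Agent.FOR.Pd

/-!
MP_e2be99_lc: explicit hitting sets of polynomial size for read-once (oblivious) algebraic branching
programs in any order, of arbitrary individual degree, over fields of characteristic zero.

`Cuts w f`: for every set `S` of variables `f` is a sum of `w` products of a polynomial in the
variables in `S` and a polynomial in the other variables.  This holds if `f` has read-once programs
of width `w` in every order of the variables.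
-/

set_option autoImplicit false

namespace Pool.Agent.Results.MP_e2be99_lc.AnyOrderPolynomial

open MvPolynomial
open Pool.Agent.AOI (Cuts)
open Pool.Agent.FOR (Ps lev points)

universe u

theorem result :
    (∀ (K : Type u) [Field K] [CharZero K] (n w : ℕ),
      (∀ f : MvPolynomial (Fin n) K, f ≠ 0 → Cuts w f →
        aeval (fun i : Fin n => Ps (lev (max n w)) (X 0) (X 1) (i : ℕ)) f ≠
          (0 : MvPolynomial (Fin 2) K)) ∧
      (∀ (f : MvPolynomial (Fin n) K) (d : ℕ), f ≠ 0 → Cuts w f → (∀ i, f.degreeOf i ≤ d) →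
        ∃ x ∈ points n (n * d) w, eval (fun i => ((x i : ℕ) : K)) f ≠ 0) ∧
      (∀ (s : Multiset (MvPolynomial (Fin n) K)) (g : MvPolynomial (Fin n) K) (D : ℕ),
        (∀ f ∈ s, f ≠ 0 ∧ Cuts w f) → g ∣ s.prod → g.totalDegree ≤ D →
          ∃ x ∈ points n D w, eval (fun i => ((x i : ℕ) : K)) g ≠ 0) ∧
      (∀ U : Submodule K (MvPolynomial (Fin n) K), FiniteDimensional K U →
        Module.finrank K U ≤ w → (∀ i, ∀ p ∈ U, pderiv i p ∈ U) → ∀ f ∈ U, f ≠ 0 →
          ∃ x ∈ points n w w, eval (fun i => ((x i : ℕ) : K)) f ≠ 0)) ∧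
    ∀ n D w : ℕ, (points n D w).card ≤ 2 ^ 3840 * (D + 1) ^ 2 * (n + w + 1) ^ 480 ∧
      ∀ x ∈ points n D w, ∀ i, x i ≤ (D + 2) ^ (2 ^ 4032 * (n + w + 1) ^ 504) := by
  refine ⟨fun K _ _ n w => ⟨fun f hf hw => Pool.Agent.FOR.gen f hf hw, fun f d hf hw hd => ?_,
    fun s g D hs hg hD => Pool.Agent.FOR.main s hs g hg hD, fun U hU hr hs f hf hf0 => ?_⟩,
    fun n D w => ⟨Pool.Agent.FOR.card_points' n D w, fun x hx i =>
      Pool.Agent.FOR.bit_points n D w x hx i⟩⟩
  · refine Pool.Agent.FOR.main {f} (fun f' hf' => ?_) f ?_ (Pool.Agent.AOI.totalDegree_le f hd)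
    · rw [Multiset.mem_singleton] at hf'
      rw [hf']
      exact ⟨hf, hw⟩
    · rw [Multiset.prod_singleton]
  · refine Pool.Agent.FOR.main {f} (fun f' hf' => ?_) f ?_
      ((Pool.Agent.FOR.totalDegree_lt_of_stable U hs f hf hf0).le.trans hr)
    · rw [Multiset.mem_singleton] at hf'
      rw [hf']
      exact ⟨hf0, Pool.Agent.FOR.cuts_of_stable U hs w hr f hf⟩
    · rw [Multiset.prod_singleton]

end Pool.Agent.Results.MP_e2be99_lc.AnyOrderPolynomial
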