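import Mathlib
import Pool.Agent.CRP.Set

/-!
Deterministic black-box approximation of the rank of matrices of polynomials, and of the algebraic
rank of polynomials: explicit sets of integer points.
-/

namespace Pool.Agent.Results.MP_e2be99_lc.CommutativeRankPTAS

open Pool.Agent.CRP

universe u

/-- the rank of a matrix of polynomials over the field of rational functions -/
noncomputable def grk {K : Type u} [Field K] {m a b : ℕ}
    (M : Matrix (Fin a) (Fin b) (MvPolynomial (Fin m) K)) : ℕ :=
  (M.map (algebraMap _ (FractionRing (MvPolynomial (Fin m) K)))).rank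

/-- the value of a matrix of polynomials at an integer point -/
noncomputable def at_ {K : Type u} [Field K] {m a b : ℕ}
    (M : Matrix (Fin a) (Fin b) (MvPolynomial (Fin m) K)) (z : Fin m → ℤ) :
    Matrix (Fin a) (Fin b) K :=
  M.map (MvPolynomial.eval fun e => (z e : K))

/-- Let `N = nn m n q = 2 m n ^ 2 4 ^ q + 1`.  The set `points m n d q` consists of the integer
points `∑ i < q, y i * pts N (t i) (j i)`, `y i ≤ n d`, `t i ≤ n 2 ^ q N ^ 2`, `j i < 2 N - 1`, where
`pts N t j` has the coordinates `∑ s < N, t ^ s * ∏ k < 2 N - 1, k ≠ j, (2 ^ (e N + s) - k)`.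
(A) Every matrix of size at most `n` of polynomials of total degree at most `d` in `m` variables over
a field of characteristic zero has at one of these points at least the part
`1 - d * (q choose q / 2) / 2 ^ q` of its generic rank, in particular the part `1 - 1 / k` if
`(d k) ^ 2 ≤ q`.
(B) At most `n` polynomials of degree at most `d + 1` in `m ≤ n` variables: the rank of their Jacobian
matrix at any point is at most the largest number of algebraically independent polynomials among
them, and at one of the explicit points it is at least the part `1 - 1 / k` of this number if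
`(d k) ^ 2 ≤ q`. -/
theorem result (m n d q : ℕ) :
    (points m n d q).card ≤
      ((n * d + 1) * (n * 2 ^ q * nn m n q ^ 2 + 1) * (2 * nn m n q - 1)) ^ q ∧
    (∀ z ∈ points m n d q, ∀ e,
      |z e| ≤ (q * (n * d) * 2 ^ ((2 * m + 6) * nn m n q ^ 2) : ℕ)) ∧
    ∀ (K : Type u) [Field K] [CharZero K] (a : ℕ), a ≤ n →
      (∀ b ≤ n, ∀ M : Matrix (Fin a) (Fin b) (MvPolynomial (Fin m) K),
        (∀ i j, (M i j).totalDegree ≤ d) → ∃ z ∈ points m n d q,
          2 ^ q * grk M ≤ 2 ^ q * (at_ M z).rank + d * q.choose (q / 2) * grk M ∧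
          ∀ k, (d * k) ^ 2 ≤ q → (k - 1) * grk M ≤ k * (at_ M z).rank) ∧
      (m ≤ n → ∀ f : Fin a → MvPolynomial (Fin m) K, (∀ i, (f i).totalDegree ≤ d + 1) →
        (∀ x : Fin m → K, ∃ s : Fin (jac f x).rank → Fin a, AlgebraicIndependent K (f ∘ s)) ∧
        ∃ z ∈ points m n d q, ∀ (r : ℕ) (s : Fin r → Fin a), AlgebraicIndependent K (f ∘ s) →
          ∀ k, (d * k) ^ 2 ≤ q → (k - 1) * r ≤ k * (jac f fun e => (z e : K)).rank) := by
  refine ⟨points_card m n d q, points_abs m n d q, fun K _ _ a ha => ⟨fun b hb M hd => ?_,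
    fun hm f hf => ⟨fun x => jac_le f x le_rfl, ?_⟩⟩⟩
  · obtain ⟨z, hz, h⟩ := points_gen d q ha hb M hd
    exact ⟨z, hz, h, fun k hk => ratio hk h⟩
  · let M : Matrix (Fin a) (Fin m) (MvPolynomial (Fin m) K) :=
      Matrix.of fun i e => MvPolynomial.pderiv e (f i)
    obtain ⟨z, hz, h⟩ := points_gen d q ha hm M (fun i e => by
      have h2 := hf i
      change (MvPolynomial.pderiv e (f i)).totalDegree ≤ d
      by_cases h0 : MvPolynomial.pderiv e (f i) = 0
      · rw [h0, MvPolynomial.totalDegree_zero]
        exact Nat.zero_le d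
      · have h1 := Pool.Agent.Helper5.D4.totalDegree_pderiv_lt e (f i) h0
        omega)
    have hM : ∀ x : Fin m → K, M.map (MvPolynomial.eval x) = jac f x := fun x => rfl
    refine ⟨z, hz, fun r s hs k hk => ?_⟩
    rw [hM] at h
    have h1 := ratio hk h
    obtain ⟨x, hx⟩ := jac_ge f s hs
    have h2 := gen_le M x
    rw [hM] at h2
    exact (Nat.mul_le_mul_left (k - 1) (hx.trans h2)).trans h1

end Pool.Agent.Results.MP_e2be99_lc.CommutativeRankPTAS
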