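import Pool.Agent.KNR.GenS
import Pool.Agent.KNR.Roa

/-!
MP_e2be99_lc: for every `ε > 0`, explicit hitting sets with `poly_ε(n, w, d) * w ^ (ε log n)` points for read-once
oblivious algebraic branching programs in a known order, of every width, over all fields of characteristic zero,
and for the divisors of their products; and generators (integer curves) of degree `poly_ε(n, w) * w ^ (ε log n)` for
all such polynomials, of any degree.
-/

set_option autoImplicit false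

namespace Pool.Agent.Results.MP_e2be99_lc.KnownOrder

open MvPolynomial
open Pool.Agent.KNR (Roabp PCut fam gen hit slow meas)

universe u

private theorem tdeg_le {K : Type u} [Field K] {n d : ℕ} (f : MvPolynomial (Fin n) K)
    (hd : ∀ i, f.degreeOf i ≤ d) : f.totalDegree ≤ n * d := by
  classical
  rw [totalDegree]
  refine Finset.sup_le fun m hm => ?_
  rw [Finsupp.sum_fintype _ _ (fun _ => rfl)]
  refine (Finset.sum_le_sum (fun i _ => (monomial_le_degreeOf i hm).trans (hd i))).trans ?_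
  simp

theorem result :
    (∀ (K : Type u) [Field K] [CharZero K] (s n w : ℕ), 1 ≤ s →
      (∀ (S : Multiset (MvPolynomial (Fin n) K)) (g : MvPolynomial (Fin n) K),
        (∀ f ∈ S, f ≠ 0 ∧ PCut w f) → g ∣ S.prod →
          aeval (fun i : Fin n => (gen s n w (i : ℕ)).map (Int.castRingHom K)) g ≠
            (0 : Polynomial K)) ∧
      (∀ (d : ℕ) (f : MvPolynomial (Fin n) K), f ≠ 0 → Roabp w f → (∀ i, f.degreeOf i ≤ d) →
        ∃ p ∈ fam s n w d, eval (fun i : Fin n => ((p.getD (i : ℕ) 0 : ℤ) : K)) f ≠ 0) ∧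
      (∀ (d : ℕ) (S : Multiset (MvPolynomial (Fin n) K)) (g : MvPolynomial (Fin n) K),
        (∀ f ∈ S, f ≠ 0 ∧ PCut w f) → g ∣ S.prod → g.totalDegree ≤ n * d →
          ∃ p ∈ fam s n w d, eval (fun i : Fin n => ((p.getD (i : ℕ) 0 : ℤ) : K)) g ≠ 0)) ∧
    (∀ s n w d : ℕ, ∀ p ∈ fam s n w d, p.length = n ∧
      ∃ v : ℕ, p = (List.range n).map fun i : ℕ => (gen s n w i).eval (v : ℤ)) ∧
    (∀ k : ℕ, 0 < k → ∃ s : ℕ, 1 ≤ s ∧ ∃ C : ℕ, ∀ n w : ℕ,
      (∀ i : ℕ, (gen s n w i).natDegree ^ k ≤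
        (C * ((n + 1) * (w + 1)) ^ C) ^ k * (w + 1) ^ Nat.log 2 n) ∧
      ∀ d : ℕ, meas (fam s n w d) ^ k ≤
        (C * (d + 1) * ((n + 1) * (w + 1)) ^ C) ^ k * (w + 1) ^ Nat.log 2 n) ∧
    (∀ n w d : ℕ, ∃ s : ℕ, 1 ≤ s ∧ s ≤ slow n + 1 ∧ hit n w d = fam s n w d) ∧
    ∀ k : ℕ, 0 < k → ∃ C : ℕ, ∀ n w d : ℕ,
      meas (hit n w d) ^ k ≤
        (C * (d + 1) * ((n + 1) * (w + 1)) ^ C) ^ k * (w + 1) ^ Nat.log 2 n := by
  refine ⟨fun K _ _ s n w hs => ⟨fun S g hS hg => Pool.Agent.KNR.gen_hits K hs S hS g hg,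
      fun d f hf hw hd => ?_, fun d S g hS hg hd => Pool.Agent.KNR.fam_hits_dvd K hs S hS g hg hd⟩,
    fun s n w d p hp => ⟨Pool.Agent.KNR.fam_length p hp, Pool.Agent.KNR.mem_fam_gen p hp⟩,
    fun k hk => Pool.Agent.KNR.gen_fam_bound k hk,
    fun n w d => Pool.Agent.KNR.hit_eq n w d, fun k hk => Pool.Agent.KNR.hit_bound k hk⟩
  refine Pool.Agent.KNR.fam_hits_dvd K hs {f} (fun f' hf' => ?_) f ?_ (tdeg_le f hd)
  · rw [Multiset.mem_singleton] at hf'
    rw [hf']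
    exact ⟨hf, hw.pcut⟩
  · rw [Multiset.prod_singleton]

end Pool.Agent.Results.MP_e2be99_lc.KnownOrder
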