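import Pool.Agent.CLK.St

/-!
# MP_e2be99_lc: hitting sets of polynomial size for limits of orbits of formulas of bounded depth with
gates of bounded occurrence and read-once programs of bounded width, in unknown order, as gates

The class is `Pool.Agent.CLK.LimitCirc`; frames: `Pool.Agent.ORG.IsFrame`; leaves:
`Pool.Agent.CLO.Leaf`; gates: `Pool.Agent.CWR.Circ`; numbers: `ordK` (`M`), `radK` (`R`), `EtotK`;
points: `hitK`, `Pool.Agent.ORA.hitSet`.
-/

set_option autoImplicit false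

namespace Pool.Agent.Results.MP_e2be99_lc.LimitCircuits

open MvPolynomial Pool.Agent.ORB Pool.Agent.ORA Pool.Agent.CLK

theorem result.{u, v, x} (n κ k w c s d Δ D : ℕ) :
    (hitK n κ k w c s d Δ D).card ≤
      (radK n κ k w c s d Δ D + 1) ^ (2 * (2 + EtotK κ k w Δ)) ∧
    (∀ y ∈ hitK n κ k w c s d Δ D, ∀ i,
      y i ≤ (2 + EtotK κ k w Δ) * radK n κ k w c s d Δ D * (ordK n κ k w c s d Δ *
        ((ordK n κ k w c s d Δ).factorial *
          (n * radK n κ k w c s d Δ D + 1) ^ ordK n κ k w c s d Δ))) ∧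
    Frames.{u, v} n c s d ∧ (∀ q, ProgramLimits.{u, v, x} n q w) ∧
    ∀ (F : Type x) [Field F] [CharZero F] (m : ℕ) (P : Fin m → MvPolynomial (Fin n) F)
      (_ : ∀ j, P j ≠ 0 ∧ LimitCirc.{u, v, x} n κ k w c s d Δ (P j)) (g : MvPolynomial (Fin n) F)
      (_ : g ∣ ∏ j, P j) (_ : g.totalDegree ≤ D),
      ∃ y ∈ hitK n κ k w c s d Δ D, eval (fun i => (y i : F)) g ≠ 0 :=
  ⟨card_hitSet n _ _ _, fun y hy i => bound_hitSet n _ _ _ y hy i, frames n c s d,
    fun q => programLimits n q w,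
    fun _ _ _ m P hP g hg hD => main_hit κ k w c s d Δ D m P hP g hg hD⟩

end Pool.Agent.Results.MP_e2be99_lc.LimitCircuits
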