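import Mathlib
import Pool.Agent.NCK.Main
import Pool.Agent.NCK.Closed
import Pool.Agent.NCP.Fin
import Pool.Agent.NCA.Main

/-!
Identity testing for noncommutative and partially commutative algebraic branching programs:
one explicit tuple of matrices. Equivalence of weighted automata with several tapes. Explicit
Noether normalization for the simultaneous conjugation of matrices.
-/

namespace Pool.Agent.Results.MP_e2be99_lc.NoncommutativeABP

open Pool.Agent.NCP Pool.Agent.NCK Pool.Agent.NCA

universe u

/-- (A) The variables `xv K j i`, `i < n`, are divided into `k` classes; variables of different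
classes commute. A nonzero polynomial computed by an algebraic branching program with `s` vertices
does not vanish at the explicit point `xv K j i ↦ kpt K M j i`, the Kronecker product of the
matrix `hyp K (M j) i` at the place `j` and of identity matrices at the other places, if `M` grows
as stated. The numbers `M j = (2 n s) ^ (2 k 3 ^ j)` are large enough. For `k = 1` (noncommutative
branching programs) the condition is `n s ^ 2 ≤ M 0`.
(B) The same for programs with cycles: two weighted automata with `k` tapes and at most `s` states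
together (every transition reads one letter on one tape) give all tuples of words the same weights
iff for every `l < s` the sums of their runs of length `l` have the same value at the explicit
point.
(C) The explicit invariants `trinv K A (n * (2 * m ^ 2) ^ 4) l p` with `1 ≤ l < 2 * m ^ 2` of `n`
matrices of size `m` separate any two tuples that are separated by the trace of a word; as
polynomials in the entries they are homogeneous of degree `l` and invariant under simultaneous
conjugation, and every polynomial invariant is integral over the algebra which they generate. -/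
theorem result (K : Type u) [Field K] [CharZero K] (n s k m : ℕ) :
    (∀ M : Fin k → ℕ, (∀ j : Fin k, n * (s ^ (k - j) * ∏ l ∈ Finset.Iio j, (M l + 1)) ^ 2 ≤ M j) →
      (∀ f : PCA K n k, IsPABP K s f → f ≠ 0 → kev K M f ≠ 0) ∧
      (∀ (j : Fin k) (i : Fin n), kev K M (xv K j i) = kpt K M j i)) ∧
    (∀ j : Fin k, n * (s ^ (k - j) * ∏ l ∈ Finset.Iio j, ((2 * n * s) ^ (2 * k * 3 ^ (l : ℕ)) + 1)) ^ 2
      ≤ (2 * n * s) ^ (2 * k * 3 ^ (j : ℕ))) ∧
    (∀ (a b : ℕ) (u₁ v₁ : Fin a → K) (N₁ : Fin k → Fin n → Matrix (Fin a) (Fin a) K)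
      (u₂ v₂ : Fin b → K) (N₂ : Fin k → Fin n → Matrix (Fin b) (Fin b) K), a + b ≤ s →
      ((∀ w, weight u₁ N₁ v₁ w = weight u₂ N₂ v₂ w) ↔
        ∀ l < s, kev K (fun j : Fin k => (2 * n * (s * s + 1)) ^ (2 * k * 3 ^ (j : ℕ)))
            (run u₁ N₁ v₁ l) =
          kev K (fun j : Fin k => (2 * n * (s * s + 1)) ^ (2 * k * 3 ^ (j : ℕ)))
            (run u₂ N₂ v₂ l))) ∧
    (∀ A B : Fin n → Matrix (Fin m) (Fin m) K,
      (∀ (l : ℕ) (p : Fin (n * (2 * m ^ 2) ^ 4 + 1)), 1 ≤ l → l < 2 * m ^ 2 →
        trinv K A (n * (2 * m ^ 2) ^ 4) l p = trinv K B (n * (2 * m ^ 2) ^ 4) l p) →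
      ∀ w : List (Fin n), ((w.map A).prod).trace = ((w.map B).prod).trace) ∧
    (∀ (l : ℕ) (p : Fin (n * (2 * m ^ 2) ^ 4 + 1)),
      (trinv K (gm K n m) (n * (2 * m ^ 2) ^ 4) l p).IsHomogeneous l ∧
      IsInv (trinv K (gm K n m) (n * (2 * m ^ 2) ^ 4) l p)) ∧
    (∀ f : MvPolynomial (Fin n × Fin m × Fin m) K, IsInv f →
      IsIntegral (Algebra.adjoin K {x | ∃ (l : ℕ) (p : Fin (n * (2 * m ^ 2) ^ 4 + 1)),
        1 ≤ l ∧ l < 2 * m ^ 2 ∧ x = trinv K (gm K n m) (n * (2 * m ^ 2) ^ 4) l p}) f) :=
  ⟨fun M hM => ⟨fun f hf hf0 => pabp_hit M s f hf hf0 hM, fun j i => kev_xv K M j i⟩,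
    fun j => sizes_ok n s k j,
    fun a b u₁ v₁ N₁ u₂ v₂ N₂ h => equiv_iff u₁ v₁ N₁ u₂ v₂ N₂ s (by simpa using h),
    fun A B h w => trinv_separate K A B h w, fun l p => ⟨trinv_hom _ l p, trinv_inv _ l p⟩,
    fun f hf => inv_integral f hf⟩

end Pool.Agent.Results.MP_e2be99_lc.NoncommutativeABP
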