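import Mathlib
import Pool.Agent.BNR.MxC

/-!
Deterministic black-box rank of noncommutative rational matrix expressions of any inversion height
over the free skew field: an explicit set of polynomially many tuples of matrices of polynomial
size.
-/

set_option autoImplicit false

namespace Pool.Agent.Results.MP_e2be99_lc.NoncommutativeRational

open Pool.Agent.BNR

universe u

/-- Let `K ⊆ F` and `K ⊆ L` be fields of characteristic zero, `ζ ∈ L` a primitive `N`-th root of
unity and `2 (n + 1) (s + 1) ^ 4 < N`. Let `Φ` be a noncommutative rational matrix expression of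
format `p × q` over `K` in `n` variables, of size at most `s`: the leaves are affine linear
matrices `A + ∑ i, x i • B i` of any format, the gates are sums, products and inversions of
matrices, nested in any way. If all formats are `1 × 1`, this is a rational formula.
Suppose that at some tuple `Y` of `d × d` matrices over `F` the expression is defined, that is all
inverted matrices are invertible, and that `r ≤ ⌈rank Φ(Y) / d⌉`. Then for some `t` in
`{1, …, B + 1}` and `a`, `b` in `{0, …, B}`, where `B = (s + 1) ^ 2 N ^ 2`, the expression is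
defined at the explicit tuple `X = XT L N ζ t a b` of `N × N` matrices over `L`, and
`rank Φ(X) ≥ r N`. -/
theorem result {K F L : Type u} [Field K] [CharZero K] [Field F] [Algebra K F] [Field L]
    [Algebra K L] {n s N : ℕ} [NeZero N] (ζ : L) (hζ : IsPrimitiveRoot ζ N)
    (hN : 2 * (n + 1) * (s + 1) ^ 4 < N) {p q : ℕ} (Φ : MExp K n p q) (hs : Φ.size ≤ s)
    {d : ℕ} (Y : Fin n → Matrix (Fin d) (Fin d) F) (hY : Φ.Defined Y) (r : ℕ)
    (hr : r * d < (Φ.val Y).rank + d) :
    ∃ t a b : ℕ, 1 ≤ t ∧ t ≤ (s + 1) ^ 2 * N ^ 2 + 1 ∧ a ≤ (s + 1) ^ 2 * N ^ 2 ∧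
      b ≤ (s + 1) ^ 2 * N ^ 2 ∧ Φ.Defined (XT L N ζ t a b) ∧
      r * N ≤ (Φ.val (XT L N ζ t a b)).rank :=
  mexp_final ζ hζ Φ hs hN Y hY r hr

end Pool.Agent.Results.MP_e2be99_lc.NoncommutativeRational
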