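import Pool.Agent.Helper8.Occ.Explicit

/-!
# Black-box identity testing for bounded top fan-in over bounded-occurrence formulas

Explicit hitting sets of polynomial size for sums of boundedly many products (more generally, for
polynomials in boundedly many algebraically independent products, and their divisors) of arbitrary
powers of polynomials computed by formulas of bounded depth and bounded occurrence with sparse
leaves. The case of depth `0` and leaves of bounded degree is that of depth-4 circuits with bounded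
top fan-in.
-/

namespace Pool.Agent.Results.MP_e2be99_lc.OccurTopFanin

open MvPolynomial Pool.Agent.Helper8.Occ
open Pool.Agent.Helper7.Depth4 (hittingSet)

theorem result (n κ k s P d Δ q R : ℕ) (hq : q.Prime) (hq1 : order κ k P Δ * (d + 1) < q)
    (hq2 : (order κ k P Δ).factorial * (s + 1) ^ order κ k P Δ * n ≤ q) :
    (hittingSet n q (seeds κ k P Δ) R).card ≤ (R + 1) ^ (2 + 2 * seeds κ k P Δ) ∧
    ∀ (N m : ℕ) (a : Fin N → ℚ) (g : Fin N → Fin m → MvPolynomial (Fin n) ℚ)
      (e : Fin N → Fin m → ℕ), (∀ i j, OccFormula κ (SparseLeaf n k s P d) Δ (g i j)) →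
      (∀ b : Finset (Fin N),
        AlgebraicIndepOn ℚ (fun i => ∏ j, g i j ^ e i j) (b : Set (Fin N)) → b.card ≤ k) →
      ∑ i, C (a i) * ∏ j, g i j ^ e i j ≠ 0 →
      ∀ f : MvPolynomial (Fin n) ℚ, f ∣ ∑ i, C (a i) * ∏ j, g i j ^ e i j →
        (2 * q * f.totalDegree ≤ R ∨
          2 ^ (N + 1) * (2 * q * ∑ i, ∑ j, (g i j).totalDegree) + N ≤ R) →
        ∃ x ∈ hittingSet n q (seeds κ k P Δ) R, eval x f ≠ 0 :=
  ⟨Pool.Agent.Helper7.T1.card_hittingSet n q _ R,
    fun _ _ a g e hg htr h0 f hf hR => hit_sparse' hq hq1 hq2 a g e hg htr h0 f hf hR⟩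

end Pool.Agent.Results.MP_e2be99_lc.OccurTopFanin
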