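import Pool.Agent.Helper8.RGL.Final
import Pool.Agent.QH.WMain

/-!
# Deterministic identity testing for read-r formulas of unbounded depth, without multilinearity

Black box (first part): explicit hitting sets for read-r trees of any depth with bilinear gates of
constant width (in particular read-r arithmetic formulas and read-r algebraic branching programs of
constant width, in any order), and for sums of boundedly many products of arbitrary powers of
polynomials computed by formulas of bounded depth and bounded occurrence over such trees. The size
is polynomial for bounded register number `s` (`s = 1`: branching programs of constant width) and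
quasi-polynomial without any bound for `s` (read-r formulas of any depth).

White box (second part): there is a deterministic Turing machine which decides in polynomial time
whether a read-r formula computes the zero polynomial; more generally, whether an arbitrary
arithmetic formula does, in time polynomial in the length of the input and in
`2 ^ (k ^ (1 / 2 + ε))`, where `k` is the number of the leaves labelled by variables which label
more than `r` leaves. There is no bound on the depth, the degree or the number of the leaves. The
time is expressed by a second input `v`, any word of length at least `2 ^ (k ^ (1 / 2 + ε))`; the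
algorithm takes polynomial time in the length of both inputs.
-/

namespace Pool.Agent.Results.MP_e2be99_lc.ReadKFormulas

open MvPolynomial Pool.Agent.Helper8.Occ N487b59b3 N68a2faeb
open Pool.Agent.Helper8.RGL (RG)
open Pool.Agent.Helper8.ReadKTree (points)
open Pool.Agent.Helper6.WB (Fm)
open Pool.Agent.QH (heavy)

theorem result (r : ℕ) :
    (∀ l w κ k Δ : ℕ, ∃ c : ℕ, ∀ n R s : ℕ,
      (points n (c * (min s (Nat.clog 2 n) + 1)) R).card ≤
          ((R + 1) * (n * R + 1)) ^ (c * (min s (Nat.clog 2 n) + 1)) ∧
      ∀ (N m : ℕ) (a : Fin N → ℚ) (g : Fin N → Fin m → MvPolynomial (Fin n) ℚ)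
        (e : Fin N → Fin m → ℕ), (∀ i j, OccFormula κ (RG l w n r s) Δ (g i j)) →
        (∀ b : Finset (Fin N),
          AlgebraicIndepOn ℚ (fun i => ∏ j, g i j ^ e i j) (b : Set (Fin N)) → b.card ≤ k) →
        ∑ i, C (a i) * ∏ j, g i j ^ e i j ≠ 0 →
        ∀ f : MvPolynomial (Fin n) ℚ, f ∣ ∑ i, C (a i) * ∏ j, g i j ^ e i j →
          (f.totalDegree ≤ R ∨ 2 ^ (N + 1) * (n * ∑ i, ∑ j, (g i j).totalDegree) + N ≤ R) →
          ∃ x ∈ points n (c * (min s (Nat.clog 2 n) + 1)) R, eval x f ≠ 0) ∧
    ∀ ε : ℝ, 0 < ε → ∃ f : List Bool × List (ℕ × ℚ) → Bool, IsPolyTime f ∧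
      ∀ (v : List Bool) (F : Fm), (2 : ℝ) ^ ((heavy r F : ℝ) ^ (1 / 2 + ε)) ≤ v.length →
        (f (v, F.code) = true ↔ F.poly = 0) :=
  ⟨fun l w κ k Δ => ⟨Pool.Agent.Helper8.RGL.cR l w r κ k Δ, fun _ _ _ =>
    ⟨Pool.Agent.Helper8.Tree.card_points _ _ _,
      fun _ _ a g e hg htr h0 f hf hR => Pool.Agent.Helper8.RGL.hit a g e hg htr h0 f hf hR⟩⟩,
    fun _ hε => Pool.Agent.QH.mainW r hε⟩

end Pool.Agent.Results.MP_e2be99_lc.ReadKFormulas
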